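import Pool.Agent.W2helper17.TP.Stm

/-!
# The band-dominated operators form a C*-algebra
-/

set_option autoImplicit false

namespace TP

open MeasureTheory Complex
open scoped ENNReal

noncomputable section

theorem ind_apply_mem {K : Set ℂ} {z : ℂ} (h : z ∈ K) : ind K z = 1 := by
  unfold ind; exact Set.indicator_of_mem h _

theorem ind_apply_notMem {K : Set ℂ} {z : ℂ} (h : z ∉ K) : ind K z = 0 := by
  unfold ind; exact Set.indicator_of_notMem h _

theorem Bdm_ind {K : Set ℂ} (hK : MeasurableSet K) : Bdm (ind K) := by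
  refine ⟨measurable_const.indicator hK, 1, fun z => ?_⟩
  by_cases h : z ∈ K
  · rw [ind_apply_mem h]; simp
  · rw [ind_apply_notMem h]; simp

theorem Bdm_mul {a b : ℂ → ℂ} (ha : Bdm a) (hb : Bdm b) : Bdm (fun z => a z * b z) := by
  obtain ⟨C, hC⟩ := ha.2
  obtain ⟨D, hD⟩ := hb.2
  refine ⟨ha.1.mul hb.1, C * D, fun z => ?_⟩
  rw [norm_mul]
  exact mul_le_mul (hC z) (hD z) (norm_nonneg _) ((norm_nonneg _).trans (hC z))

theorem M_mul {a b : ℂ → ℂ} (ha : Bdm a) (hb : Bdm b) (f : H) :
    M a (M b f) = M (fun z => a z * b z) f := by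
  apply Lp.ext
  filter_upwards [M_coe ha (M b f), M_coe hb f, M_coe (Bdm_mul ha hb) f] with z h1 h2 h3
  rw [h1, h2, h3]
  ring

theorem M_zero (f : H) : M (fun _ => 0) f = 0 := by
  apply Lp.ext
  filter_upwards [M_coe (a := fun _ => 0) ⟨measurable_const, 0, by simp⟩ f,
    Lp.coeFn_zero ℂ 2 gm] with z h1 h2
  rw [h1, h2]
  simp

theorem M_compl {K : Set ℂ} (hK : MeasurableSet K) (f : H) :
    M (ind K) f + M (ind Kᶜ) f = f := by
  apply Lp.ext
  filter_upwards [Lp.coeFn_add (M (ind K) f) (M (ind Kᶜ) f), M_coe (Bdm_ind hK) f,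
    M_coe (Bdm_ind hK.compl) f] with z h1 h2 h3
  rw [h1, Pi.add_apply, h2, h3]
  by_cases h : z ∈ K
  · rw [ind_apply_mem h, ind_apply_notMem (fun h' : z ∈ Kᶜ => h' h)]
    ring
  · rw [ind_apply_notMem h, ind_apply_mem (show z ∈ Kᶜ from h)]
    ring

theorem M_adj_ind {K : Set ℂ} (hK : MeasurableSet K) (f h : H) :
    inner ℂ (M (ind K) f) h = inner ℂ f (M (ind K) h) := by
  rw [L2.inner_def, L2.inner_def]
  refine integral_congr_ae ?_
  filter_upwards [M_coe (Bdm_ind hK) f, M_coe (Bdm_ind hK) h] with z h1 h2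
  rw [h1, h2]
  by_cases hz : z ∈ K
  · rw [ind_apply_mem hz, one_mul, one_mul]
  · rw [ind_apply_notMem hz, zero_mul, zero_mul, inner_zero_left, inner_zero_right]

theorem M_ind_adjoint {K : Set ℂ} (hK : MeasurableSet K) :
    ContinuousLinearMap.adjoint (M (ind K)) = M (ind K) := by
  symm
  rw [ContinuousLinearMap.eq_adjoint_iff]
  exact fun x y => M_adj_ind hK x y

theorem setDist_comm (K L : Set ℂ) : setDist K L = setDist L K := by
  unfold setDist
  rw [iInf₂_comm]
  simp only [edist_comm]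

/-- the thickening of a set -/
def thick (K : Set ℂ) (w : ℝ≥0∞) : Set ℂ := ⋃ x ∈ K, Metric.eball x w

theorem thick_meas (K : Set ℂ) (w : ℝ≥0∞) : MeasurableSet (thick K w) :=
  (isOpen_biUnion fun _ _ => Metric.isOpen_eball).measurableSet

theorem thick_compl (K : Set ℂ) (w : ℝ≥0∞) : w ≤ setDist K (thick K w)ᶜ := by
  unfold setDist
  refine le_iInf₂ fun x hx => le_iInf₂ fun y hy => ?_
  by_contra h
  push Not at h
  refine hy ?_
  unfold thick
  refine Set.mem_iUnion₂.2 ⟨x, hx, ?_⟩
  rw [Metric.mem_eball, edist_comm]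
  exact h

theorem thick_dist {K L : Set ℂ} {u v : ℝ≥0∞} (h : u + v < setDist K L) :
    u < setDist (thick K v) L := by
  obtain ⟨c, hc1, hc2⟩ := exists_between h
  have hu : u < c - v := lt_tsub_iff_right.2 hc1
  refine lt_of_lt_of_le hu ?_
  unfold setDist
  refine le_iInf₂ fun z hz => le_iInf₂ fun y hy => ?_
  obtain ⟨x, hx, hxz⟩ := Set.mem_iUnion₂.1 hz
  rw [Metric.mem_eball] at hxz
  have h1 : c < edist x y := by
    refine lt_of_lt_of_le hc2 ?_
    unfold setDist
    exact iInf₂_le_of_le x hx (iInf₂_le y hy)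
  have h2 := edist_triangle x z y
  rw [edist_comm x z] at h2
  rw [tsub_le_iff_right]
  calc c ≤ edist z x + edist z y := h1.le.trans h2
    _ ≤ v + edist z y := add_le_add hxz.le le_rfl
    _ = edist z y + v := add_comm _ _

theorem M_disj {K L : Set ℂ} (hK : MeasurableSet K) (hL : MeasurableSet L) {a : ℂ → ℂ} (ha : Bdm a)
    (h : 0 < setDist K L) : (M (ind L)) ∘L (M a) ∘L (M (ind K)) = 0 := by
  ext1 f
  simp only [ContinuousLinearMap.comp_apply, zero_apply]
  rw [M_mul ha (Bdm_ind hK), M_mul (Bdm_ind hL) (Bdm_mul ha (Bdm_ind hK))]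
  have e : (fun z => ind L z * (a z * ind K z)) = fun _ => 0 := by
    funext z
    by_cases hz : z ∈ K
    · have hz' : z ∉ L := by
        intro hzL
        have : setDist K L ≤ edist z z := by
          unfold setDist
          exact iInf₂_le_of_le z hz (iInf₂_le z hzL)
        rw [edist_self] at this
        exact absurd h (not_lt.2 this)
      rw [ind_apply_notMem hz', zero_mul]
    · rw [ind_apply_notMem hz, mul_zero, mul_zero]
  rw [e, M_zero]

theorem band_M {a : ℂ → ℂ} (ha : Bdm a) : IsBand (M a) := by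
  refine ⟨0, ENNReal.zero_ne_top, fun K L hK hL h => ?_⟩
  by_contra hcon
  push Not at hcon
  exact h (M_disj hK hL ha hcon)

theorem band_mul {A B : H →L[ℂ] H} (hA : IsBand A) (hB : IsBand B) : IsBand (A ∘L B) := by
  obtain ⟨u, hu, hA⟩ := hA
  obtain ⟨v, hv, hB⟩ := hB
  refine ⟨u + (v + 1), ENNReal.add_ne_top.2 ⟨hu, ENNReal.add_ne_top.2 ⟨hv, ENNReal.one_ne_top⟩⟩,
    fun K L hK hL h => ?_⟩
  by_contra hcon
  push Not at hcon
  refine h ?_
  have hN := thick_meas K (v + 1)
  have h1 : (M (ind (thick K (v + 1))ᶜ)) ∘L B ∘L (M (ind K)) = 0 := by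
    by_contra h2
    have h3 := (thick_compl K (v + 1)).trans (hB K _ hK hN.compl h2)
    exact absurd h3 (not_le.2 (ENNReal.lt_add_right hv one_ne_zero))
  have h2 : (M (ind L)) ∘L A ∘L (M (ind (thick K (v + 1)))) = 0 := by
    by_contra h2
    exact absurd (thick_dist hcon) (not_lt.2 (hA _ L hN hL h2))
  ext1 f
  simp only [ContinuousLinearMap.comp_apply, zero_apply]
  have h3 := M_compl hN (B (M (ind K) f))
  have h4 := DFunLike.congr_fun h1 f
  simp only [ContinuousLinearMap.comp_apply, zero_apply] at h4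
  rw [h4, add_zero] at h3
  have h5 := DFunLike.congr_fun h2 (B (M (ind K) f))
  simp only [ContinuousLinearMap.comp_apply, zero_apply] at h5
  rwa [h3] at h5

theorem band_adj {A : H →L[ℂ] H} (hA : IsBand A) : IsBand (ContinuousLinearMap.adjoint A) := by
  obtain ⟨u, hu, hA⟩ := hA
  refine ⟨u, hu, fun K L hK hL h => ?_⟩
  rw [setDist_comm]
  refine hA L K hL hK fun h0 => h ?_
  have h1 := congrArg ContinuousLinearMap.adjoint h0
  rw [ContinuousLinearMap.adjoint_comp, ContinuousLinearMap.adjoint_comp, M_ind_adjoint hK,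
    M_ind_adjoint hL, map_zero, ContinuousLinearMap.comp_assoc] at h1
  exact h1

theorem band_add {A B : H →L[ℂ] H} (hA : IsBand A) (hB : IsBand B) : IsBand (A + B) := by
  obtain ⟨u, hu, hA⟩ := hA
  obtain ⟨v, hv, hB⟩ := hB
  refine ⟨max u v, (max_lt hu.lt_top hv.lt_top).ne, fun K L hK hL h => ?_⟩
  by_contra hcon
  push Not at hcon
  refine h ?_
  have h1 : (M (ind L)) ∘L A ∘L (M (ind K)) = 0 := by
    by_contra h2
    exact absurd (lt_of_le_of_lt (le_max_left u v) hcon) (not_lt.2 (hA K L hK hL h2))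
  have h2 : (M (ind L)) ∘L B ∘L (M (ind K)) = 0 := by
    by_contra h2
    exact absurd (lt_of_le_of_lt (le_max_right u v) hcon) (not_lt.2 (hB K L hK hL h2))
  rw [ContinuousLinearMap.add_comp, ContinuousLinearMap.comp_add, h1, h2, add_zero]

theorem band_smul {A : H →L[ℂ] H} (hA : IsBand A) (c : ℂ) : IsBand (c • A) := by
  obtain ⟨u, hu, hA⟩ := hA
  refine ⟨u, hu, fun K L hK hL h => hA K L hK hL fun h0 => h ?_⟩
  rw [ContinuousLinearMap.smul_comp, ContinuousLinearMap.comp_smul, h0, smul_zero]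

theorem piece_BDO : P_BDO := by
  refine ⟨fun A hA B hB => ?_, fun A hA => ?_, fun a ha => subset_closure (band_M ha),
    fun A hA B hB => ?_, fun c A hA => ?_⟩
  · exact map_mem_closure₂ (f := fun A B : H →L[ℂ] H => A ∘L B) (by fun_prop) hA hB
      fun A hA B hB => band_mul hA hB
  · exact map_mem_closure (f := fun A : H →L[ℂ] H => ContinuousLinearMap.adjoint A)
      (ContinuousLinearMap.adjoint.continuous) hA fun A hA => band_adj hA
  · exact map_mem_closure₂ (f := fun A B : H →L[ℂ] H => A + B) (by fun_prop) hA hB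
      fun A hA B hB => band_add hA hB
  · exact map_mem_closure (f := fun A : H →L[ℂ] H => c • A) (by fun_prop) hA
      fun A hA => band_smul hA c

end

end TP
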