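import Pool.Agent.W2helper73.TP.Bdo

/-!
# The projection onto a true polyanalytic Fock space is band-dominated
-/

set_option autoImplicit false

namespace TP

open MeasureTheory Complex Filter Topology
open scoped ENNReal

noncomputable section

/-- functions of polynomial growth times a Gaussian are integrable -/
theorem poly_gauss {u : ℂ → ℂ} (hu : AEStronglyMeasurable u (volume : Measure ℂ)) {D : ℝ} {N : ℕ}
    (h : ∀ᵐ z ∂(volume : Measure ℂ), ‖u z‖ ≤ D * (1 + ‖z‖) ^ N) :
    Integrable (fun z : ℂ => ‖u z‖ * Real.exp (-‖z‖ ^ 2 / 2)) (volume : Measure ℂ) := by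
  have hg : Integrable (fun z : ℂ => Real.exp (-(1 / 4) * ‖z‖ ^ 2)) (volume : Measure ℂ) := by
    have h1 := (GaussianFourier.integrable_cexp_neg_mul_sq_norm_add (V := ℂ) (b := (1 / 4 : ℂ))
      (by norm_num) 0 0).norm
    refine h1.congr (Eventually.of_forall fun z => ?_)
    simp only [inner_zero_left, Complex.ofReal_zero, mul_zero, add_zero]
    rw [Complex.norm_exp]
    congr 1
    rw [show (-(1 / 4 : ℂ) * (‖z‖ : ℂ) ^ 2) = ((-(1 / 4) * ‖z‖ ^ 2 : ℝ) : ℂ) by push_cast; ring,
      Complex.ofReal_re]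
  have hp : ∀ x : ℝ, 0 ≤ x → (1 + x) ^ N * Real.exp (-x ^ 2 / 2) ≤
      (N.factorial : ℝ) * Real.exp 2 * Real.exp (-(1 / 4) * x ^ 2) := by
    intro x hx
    have h1 := Real.pow_div_factorial_le_exp (1 + x) (by linarith) N
    rw [div_le_iff₀ (by positivity)] at h1
    have h2 : Real.exp (1 + x) * Real.exp (-x ^ 2 / 2) ≤
        Real.exp 2 * Real.exp (-(1 / 4) * x ^ 2) := by
      rw [← Real.exp_add, ← Real.exp_add]
      refine Real.exp_le_exp.2 ?_
      nlinarith [sq_nonneg (x - 2)]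
    calc (1 + x) ^ N * Real.exp (-x ^ 2 / 2)
        ≤ (Real.exp (1 + x) * N.factorial) * Real.exp (-x ^ 2 / 2) :=
          mul_le_mul_of_nonneg_right h1 (Real.exp_pos _).le
      _ = N.factorial * (Real.exp (1 + x) * Real.exp (-x ^ 2 / 2)) := by ring
      _ ≤ N.factorial * (Real.exp 2 * Real.exp (-(1 / 4) * x ^ 2)) :=
          mul_le_mul_of_nonneg_left h2 (by positivity)
      _ = _ := by ring
  refine (hg.const_mul (|D| * ((N.factorial : ℝ) * Real.exp 2))).mono' ?_ ?_
  · exact hu.norm.mul (by fun_prop : Continuous fun z : ℂ =>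
      Real.exp (-‖z‖ ^ 2 / 2)).aestronglyMeasurable
  · filter_upwards [h] with z hz
    rw [Real.norm_of_nonneg (by positivity)]
    calc ‖u z‖ * Real.exp (-‖z‖ ^ 2 / 2)
        ≤ (|D| * (1 + ‖z‖) ^ N) * Real.exp (-‖z‖ ^ 2 / 2) := by
          refine mul_le_mul_of_nonneg_right (hz.trans ?_) (Real.exp_pos _).le
          exact mul_le_mul_of_nonneg_right (le_abs_self D) (by positivity)
      _ = |D| * ((1 + ‖z‖) ^ N * Real.exp (-‖z‖ ^ 2 / 2)) := by ring
      _ ≤ |D| * ((N.factorial : ℝ) * Real.exp 2 * Real.exp (-(1 / 4) * ‖z‖ ^ 2)) :=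
          mul_le_mul_of_nonneg_left (hp _ (norm_nonneg z)) (abs_nonneg D)
      _ = _ := by ring

/-- the weighted `L¹` norm -/
def wI (u : H) : ℝ := ∫ z : ℂ, ‖u z‖ * Real.exp (-‖z‖ ^ 2 / 2)

/-- admissible windows -/
def Adm (u : H) : Prop :=
  Integrable (fun z : ℂ => ‖u z‖ * Real.exp (-‖z‖ ^ 2 / 2)) (volume : Measure ℂ)

theorem wI_nonneg (u : H) : 0 ≤ wI u := integral_nonneg fun _ => by positivity

/-- the coherent state transform -/
def Vlin (hV : P_V) {u : H} (hu : Adm u) : H →ₗ[ℂ] Lp ℂ 2 (volume : Measure ℂ) where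
  toFun f := ((hV u hu f).1).toLp _
  map_add' f g := by
    rw [← MemLp.toLp_add]
    apply MemLp.toLp_congr
    filter_upwards with w
    simp only [Pi.add_apply]
    rw [inner_add_right]
  map_smul' c f := by
    rw [RingHom.id_apply, ← MemLp.toLp_const_smul]
    apply MemLp.toLp_congr
    filter_upwards with w
    simp only [Pi.smul_apply, smul_eq_mul]
    rw [inner_smul_right]

theorem norm_sq_Lp (F : Lp ℂ 2 (volume : Measure ℂ)) : ‖F‖ ^ 2 = ∫ w : ℂ, ‖F w‖ ^ 2 := by
  have h := L2.inner_def (𝕜 := ℂ) F F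
  have h1 : (inner ℂ F F : ℂ) = ((‖F‖ ^ 2 : ℝ) : ℂ) := by
    rw [inner_self_eq_norm_sq_to_K]; norm_cast
  have h2 : ∫ w : ℂ, inner ℂ (F w) (F w) = ((∫ w : ℂ, ‖F w‖ ^ 2 : ℝ) : ℂ) := by
    rw [← integral_complex_ofReal]
    refine integral_congr_ae (Eventually.of_forall fun w => ?_)
    simp only
    rw [inner_self_eq_norm_sq_to_K]; norm_cast
  rw [h1, h2] at h
  exact_mod_cast h

theorem Vlin_bound (hV : P_V) {u : H} (hu : Adm u) (f : H) : ‖Vlin hV hu f‖ ≤ wI u * ‖f‖ := by
  have h1 : ‖Vlin hV hu f‖ ^ 2 ≤ (wI u * ‖f‖) ^ 2 := by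
    rw [norm_sq_Lp]
    have h2 : ∫ w : ℂ, ‖(Vlin hV hu f) w‖ ^ 2 = ∫ w : ℂ, ‖inner ℂ (W w u) f‖ ^ 2 := by
      refine integral_congr_ae ?_
      filter_upwards [((hV u hu f).1).coeFn_toLp] with w hw
      have : (Vlin hV hu f) w = inner ℂ (W w u) f := hw
      rw [this]
    rw [h2]
    refine ((hV u hu f).2).trans ?_
    have h3 : (1 / Real.pi) ≤ 1 := by
      rw [div_le_one Real.pi_pos]
      linarith [Real.pi_gt_three]
    rw [mul_pow]
    refine mul_le_mul_of_nonneg_right ?_ (by positivity)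
    calc (1 / Real.pi) * (∫ z : ℂ, ‖u z‖ * Real.exp (-‖z‖ ^ 2 / 2)) ^ 2
        ≤ 1 * (∫ z : ℂ, ‖u z‖ * Real.exp (-‖z‖ ^ 2 / 2)) ^ 2 :=
          mul_le_mul_of_nonneg_right h3 (sq_nonneg _)
      _ = wI u ^ 2 := by rw [one_mul]; rfl
  exact (pow_le_pow_iff_left₀ (norm_nonneg _) (mul_nonneg (wI_nonneg u) (norm_nonneg f))
    two_ne_zero).1 h1

/-- the coherent state transform as a bounded operator -/
def V (hV : P_V) {u : H} (hu : Adm u) : H →L[ℂ] Lp ℂ 2 (volume : Measure ℂ) :=
  (Vlin hV hu).mkContinuous (wI u) (Vlin_bound hV hu)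

theorem V_coe (hV : P_V) {u : H} (hu : Adm u) (f : H) :
    V hV hu f =ᵐ[volume] fun w => inner ℂ (W w u) f := ((hV u hu f).1).coeFn_toLp

theorem V_norm (hV : P_V) {u : H} (hu : Adm u) : ‖V hV hu‖ ≤ wI u :=
  LinearMap.mkContinuous_norm_le _ (wI_nonneg u) _

theorem V_inner (hV : P_V) {u : H} (hu : Adm u) (h f : H) :
    inner ℂ (V hV hu h) (V hV hu f) =
      ∫ w : ℂ, inner ℂ h (W w u) * inner ℂ (W w u) f := by
  rw [L2.inner_def]
  refine integral_congr_ae ?_
  filter_upwards [V_coe hV hu h, V_coe hV hu f] with w h1 h2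
  rw [h1, h2]
  rw [RCLike.inner_apply, inner_conj_symm]
  ring

theorem V_sub (hV : P_V) {u v : H} (hu : Adm u) (hv : Adm v) (huv : Adm (u - v)) :
    V hV hu - V hV hv = V hV huv := by
  ext1 f
  apply Lp.ext
  filter_upwards [V_coe hV hu f, V_coe hV hv f, V_coe hV huv f,
    Lp.coeFn_sub (V hV hu f) (V hV hv f)] with w h1 h2 h3 h4
  have h5 : (V hV hu - V hV hv) f = V hV hu f - V hV hv f := rfl
  rw [h5, h4, Pi.sub_apply, h1, h2, h3, map_sub, inner_sub_left]

/-- truncations are admissible -/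
theorem Adm_M {u : H} (hu : Adm u) {K : Set ℂ} (hK : MeasurableSet K) : Adm (M (ind K) u) := by
  refine Integrable.mono' hu ?_ ?_
  · exact (((Lp.aestronglyMeasurable (M (ind K) u)).mono_ac vol_ac).norm).mul
      (by fun_prop : Continuous fun z : ℂ => Real.exp (-‖z‖ ^ 2 / 2)).aestronglyMeasurable
  · filter_upwards [vol_ac.ae_le (M_coe (Bdm_ind hK) u)] with z hz
    rw [Real.norm_of_nonneg (by positivity), hz]
    refine mul_le_mul_of_nonneg_right ?_ (Real.exp_pos _).le
    by_cases h : z ∈ K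
    · rw [ind_apply_mem h, one_mul]
    · rw [ind_apply_notMem h, zero_mul, norm_zero]; exact norm_nonneg _

theorem sub_trunc {K : Set ℂ} (hK : MeasurableSet K) (u : H) :
    u - M (ind K) u = M (ind Kᶜ) u := by
  rw [sub_eq_iff_eq_add, add_comm]
  exact (M_compl hK u).symm

/-- the truncated projection is a band operator -/
theorem band_trunc (hV : P_V) {u : H} (R : ℝ)
    (hu' : Adm (M (ind (Metric.ball 0 R)) u)) :
    IsBand (ContinuousLinearMap.adjoint (V hV hu') ∘L V hV hu') := by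
  refine ⟨ENNReal.ofReal (2 * R), ENNReal.ofReal_ne_top, fun K L hK hL h => ?_⟩
  by_contra hcon
  push Not at hcon
  refine h ?_
  ext1 f
  refine ext_inner_left ℂ fun g => ?_
  simp only [ContinuousLinearMap.comp_apply, zero_apply, inner_zero_right]
  rw [← M_adj_ind hL, ContinuousLinearMap.adjoint_inner_right, V_inner]
  refine integral_eq_zero_of_ae (Eventually.of_forall fun w => ?_)
  simp only [Pi.zero_apply]
  have hB : MeasurableSet (Metric.ball (0 : ℂ) R) := Metric.isOpen_ball.measurableSet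
  have hWM : W w (M (ind (Metric.ball 0 R)) u) = M (ind (Metric.ball w R)) (W w u) := by
    rw [W_M (Bdm_ind hB)]
    congr 1
    congr 1
    funext z
    by_cases hz : z ∈ Metric.ball w R
    · rw [ind_apply_mem hz, ind_apply_mem (by
        rw [Metric.mem_ball, dist_zero_right, ← dist_eq_norm]; exact hz)]
    · rw [ind_apply_notMem hz, ind_apply_notMem (by
        rw [Metric.mem_ball, dist_zero_right, ← dist_eq_norm]; exact hz)]
  have hBw : MeasurableSet (Metric.ball w R) := Metric.isOpen_ball.measurableSet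
  have hzero : ∀ (S : Set ℂ), MeasurableSet S → Disjoint S (Metric.ball w R) → ∀ x : H,
      M (ind (Metric.ball w R)) (M (ind S) x) = 0 := by
    intro S hS hd x
    rw [M_mul (Bdm_ind hBw) (Bdm_ind hS)]
    have e : (fun z => ind (Metric.ball w R) z * ind S z) = fun _ => 0 := by
      funext z
      by_cases hz : z ∈ S
      · rw [ind_apply_notMem (Set.disjoint_left.1 hd hz), zero_mul]
      · rw [ind_apply_notMem hz, mul_zero]
    rw [e, M_zero]
  rw [hWM]
  by_cases h1 : Disjoint K (Metric.ball w R)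
  · rw [M_adj_ind hBw (W w u), hzero K hK h1, inner_zero_right, mul_zero]
  · by_cases h2 : Disjoint L (Metric.ball w R)
    · rw [← M_adj_ind hBw, hzero L hL h2, inner_zero_left, zero_mul]
    · exfalso
      obtain ⟨x, hxK, hxB⟩ := Set.not_disjoint_iff.1 h1
      obtain ⟨y, hyL, hyB⟩ := Set.not_disjoint_iff.1 h2
      have h3 : setDist K L ≤ edist x y := by
        unfold setDist
        exact iInf₂_le_of_le x hxK (iInf₂_le y hyL)
      have h4 : edist x y ≤ ENNReal.ofReal (2 * R) := by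
        rw [edist_dist]
        refine ENNReal.ofReal_le_ofReal ?_
        rw [Metric.mem_ball] at hxB hyB
        have := dist_triangle_right x y w
        linarith
      exact absurd (h3.trans h4) (not_le.2 hcon)

theorem piece_PB (hRES : P_RES) (hV : P_V) : P_PB := by
  intro j P hP
  obtain ⟨K, hK, C, κ, hC, hκ, hKc, ⟨D, N, hKD⟩, -, -, hres⟩ := hRES j
  set k : H := hK.toLp K with hk
  have hkK : ∀ᵐ z ∂(volume : Measure ℂ), k z = K z := vol_ac.ae_le hK.coeFn_toLp
  have hkA : Adm k := by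
    refine poly_gauss ((Lp.aestronglyMeasurable k).mono_ac vol_ac) (D := D) (N := N) ?_
    filter_upwards [hkK] with z hz
    rw [hz]
    exact hKD z
  have hone : ∀ f : H, M (fun _ => 1) f = f := by
    intro f
    apply Lp.ext
    filter_upwards [M_coe (a := fun _ => 1) ⟨measurable_const, 1, by simp⟩ f] with z hz
    rw [hz, one_mul]
  have hPV : P = (C : ℂ) • (ContinuousLinearMap.adjoint (V hV hkA) ∘L V hV hkA) := by
    ext1 f
    refine ext_inner_left ℂ fun h => ?_
    have h1 := hres P hP (fun _ => 1) ⟨measurable_const, 1, by simp⟩ f h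
    rw [hone, hP.2.1 (P f) (hP.1 f)] at h1
    simp only [one_mul] at h1
    rw [h1, smul_apply, ContinuousLinearMap.comp_apply, inner_smul_right,
      ContinuousLinearMap.adjoint_inner_right, V_inner]
  have hB : ∀ m : ℕ, MeasurableSet (Metric.ball (0 : ℂ) m) := fun m =>
    Metric.isOpen_ball.measurableSet
  have hkm : ∀ m : ℕ, Adm (M (ind (Metric.ball 0 m)) k) := fun m => Adm_M hkA (hB m)
  have hkd : ∀ m : ℕ, Adm (k - M (ind (Metric.ball 0 m)) k) := fun m => by
    rw [sub_trunc (hB m)]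
    exact Adm_M hkA (hB m).compl
  have hwI : Tendsto (fun m : ℕ => wI (k - M (ind (Metric.ball 0 m)) k)) atTop (𝓝 0) := by
    have e1 : ∀ m : ℕ, wI (k - M (ind (Metric.ball 0 m)) k) =
        ∫ z : ℂ, (Metric.ball (0 : ℂ) m)ᶜ.indicator
          (fun z => ‖k z‖ * Real.exp (-‖z‖ ^ 2 / 2)) z := by
      intro m
      unfold wI
      rw [sub_trunc (hB m)]
      refine integral_congr_ae ?_
      filter_upwards [vol_ac.ae_le (M_coe (Bdm_ind (hB m).compl) k)] with z hz
      rw [hz]
      by_cases h : z ∈ (Metric.ball (0 : ℂ) m)ᶜ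
      · rw [ind_apply_mem h, one_mul, Set.indicator_of_mem h]
      · rw [ind_apply_notMem h, zero_mul, norm_zero, zero_mul, Set.indicator_of_notMem h]
    simp_rw [e1]
    have h0 : (0 : ℝ) = ∫ z : ℂ, (0 : ℝ) := by simp
    rw [h0]
    refine tendsto_integral_of_dominated_convergence
      (fun z => ‖k z‖ * Real.exp (-‖z‖ ^ 2 / 2)) (fun m => ?_) hkA (fun m => ?_) ?_
    · exact hkA.aestronglyMeasurable.indicator (hB m).compl
    · refine Eventually.of_forall fun z => ?_
      rw [norm_indicator_eq_indicator_norm]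
      refine (Set.indicator_le_self' (fun _ _ => norm_nonneg _) z).trans (le_of_eq ?_)
      rw [Real.norm_of_nonneg (by positivity)]
    · refine Eventually.of_forall fun z => ?_
      refine tendsto_const_nhds.congr' ?_
      obtain ⟨m0, hm0⟩ := exists_nat_gt ‖z‖
      filter_upwards [eventually_ge_atTop m0] with m hm
      rw [Set.indicator_of_notMem]
      intro h
      refine h ?_
      rw [Metric.mem_ball, dist_zero_right]
      exact hm0.trans_le (by exact_mod_cast hm)
  have hVt : Tendsto (fun m : ℕ => V hV (hkm m)) atTop (𝓝 (V hV hkA)) := by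
    rw [tendsto_iff_norm_sub_tendsto_zero]
    refine squeeze_zero (fun _ => norm_nonneg _) (fun m => ?_) hwI
    rw [norm_sub_rev, V_sub hV hkA (hkm m) (hkd m)]
    exact V_norm hV (hkd m)
  have hcont : Continuous fun S : H →L[ℂ] Lp ℂ 2 (volume : Measure ℂ) =>
      (C : ℂ) • (ContinuousLinearMap.adjoint S ∘L S) := by
    have h1 : Continuous fun S : H →L[ℂ] Lp ℂ 2 (volume : Measure ℂ) =>
        ContinuousLinearMap.adjoint S := ContinuousLinearMap.adjoint.continuous
    have h2 : Continuous fun S : H →L[ℂ] Lp ℂ 2 (volume : Measure ℂ) =>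
        ContinuousLinearMap.adjoint S ∘L S := h1.clm_comp continuous_id
    exact h2.const_smul (C : ℂ)
  have hlim := (hcont.tendsto (V hV hkA)).comp hVt
  rw [hPV]
  refine mem_closure_of_tendsto hlim (Eventually.of_forall fun m => ?_)
  exact band_smul (band_trunc hV m (hkm m)) _

end

end TP
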